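import Pool.Agent.TH305.AX.CmpT2

/-!
Axisymmetric flows: comparison of the circulation with a barrier, where the equation is used only
at the records of the circulation (helper62).
-/

set_option autoImplicit false

open MeasureTheory Set Metric Filter Topology
open scoped ContDiff

namespace Pool.Agent.NH62.RC

open H459R3.NS W221.NS Pool.Agent.TH305.DR Pool.Agent.TH305.AX

variable {ν T : ℝ} {u : ℝ → V → V} {p : ℝ → V → ℝ}

/-- The comparison. -/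
theorem cmpR (hν : 0 < ν) (h : AxSol ν T u p) {δ S t₁ : ℝ} (hδ : 0 < δ) (hS : 0 < S)
    (ht₁ : 0 ≤ t₁) {Φ : ℝ → ℝ → ℝ}
    (hΦ0 : ∀ t ∈ Ico t₁ T, ∀ σ ∈ Icc 0 S, 0 ≤ Φ t σ)
    (hΦm : ∀ t ∈ Ico t₁ T, ∀ t' ∈ Icc t₁ t, ∀ σ ∈ Icc 0 S, ∀ σ' ∈ Icc 0 σ, Φ t' σ' ≤ Φ t σ)
    (hΦc : ContinuousOn (fun z : ℝ × ℝ => Φ z.1 z.2) (Ico t₁ T ×ˢ Icc 0 S)) {Φ₁ : ℝ → ℝ → ℝ}
    (hΦ₁ : ∀ t ∈ Ioo t₁ T, ∀ σ ∈ Ioo 0 S, HasDerivAt (Φ t) (Φ₁ t σ) σ)
    (hin : ∀ x, sg x ≤ S → |circ (u t₁) x| ≤ δ + Φ t₁ (sg x))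
    (hlat : ∀ t ∈ Ico t₁ T, ∀ x, sg x = S → |circ (u t) x| ≤ δ + Φ t (sg x))
    (hmaj : ∀ t ∈ Ioo t₁ T, ∀ x, 0 < sg x → sg x < S → δ + Φ t (sg x) < |circ (u t) x| →
      (∀ t' ∈ Icc t₁ t, ∀ y, sg y ≤ sg x → |circ (u t') y| ≤ |circ (u t) x|) →
      fderiv ℝ (circ (u t)) x ![0, 0, 1] = 0 →
      circ (u t) x * fderiv ℝ (circ (u t)) x ![x 0, x 1, 0]
        = |circ (u t) x| * (2 * sg x * Φ₁ t (sg x)) →
      ∃ χ χ₁ c₂ d ζ, Maj Φ t (sg x) χ χ₁ c₂ d ζ ∧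
        4 * ν * sg x * c₂ - 2 * (x 0 * u t x 0 + x 1 * u t x 1) * χ₁ (sg x) ≤ d) :
    ∀ t ∈ Ico t₁ T, ∀ x, sg x ≤ S → |circ (u t) x| ≤ δ + Φ t (sg x) := by
  intro t₀ ht₀ x₀ hx₀S
  by_contra hcon
  push Not at hcon
  have hI0 : ∀ t ∈ Icc t₁ t₀, t ∈ Ico 0 T := fun t ht =>
    ⟨ht₁.trans ht.1, ht.2.trans_lt ht₀.2⟩
  have hI : ∀ t ∈ Icc t₁ t₀, t ∈ Ico t₁ T := fun t ht => ⟨ht.1, ht.2.trans_lt ht₀.2⟩
  obtain ⟨ε, hε, hε2⟩ : ∃ ε : ℝ, 0 < ε ∧
      0 < |circ (u t₀) x₀| - (δ + Φ t₀ (sg x₀)) - ε * (t₀ - t₁ + 1) := by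
    obtain ⟨Z, hZ⟩ : ∃ Z : ℝ, Z = t₀ - t₁ + 1 := ⟨_, rfl⟩
    have hZ0 : 0 < Z := by rw [hZ]; linarith [ht₀.1]
    obtain ⟨m, hm⟩ : ∃ m : ℝ, m = |circ (u t₀) x₀| - (δ + Φ t₀ (sg x₀)) := ⟨_, rfl⟩
    have hm0 : 0 < m := by rw [hm]; linarith
    rw [← hZ, ← hm]
    refine ⟨m / (2 * Z), by positivity, ?_⟩
    have : m / (2 * Z) * Z = m / 2 := by field_simp
    rw [this]
    linarith
  obtain ⟨F, hF⟩ : ∃ F : ℝ × V → ℝ, F = fun z => |circ (u z.1) z.2|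
      - (δ + Φ z.1 (sg z.2)) - ε * (z.1 - t₁ + 1) := ⟨_, rfl⟩
  -- outside a ball F is negative
  obtain ⟨R₁, hR₁⟩ := h.decay t₀ ht₀.2 (δ / (2 * √S + 1)) (by positivity)
  obtain ⟨R, hR⟩ : ∃ R : ℝ, R = max R₁ ‖x₀‖ := ⟨_, rfl⟩
  have hout : ∀ t ∈ Icc t₁ t₀, ∀ x, sg x ≤ S → R < ‖x‖ → F (t, x) < 0 := by
    intro t ht x hxS hx
    rw [hF]
    show |circ (u t) x| - (δ + Φ t (sg x)) - ε * (t - t₁ + 1) < 0
    have h1 := circ_le (u t) x
    have h2 := hR₁ t ⟨ht₁.trans ht.1, ht.2⟩ x ((le_max_left R₁ ‖x₀‖).trans (by rw [← hR]; exact hx.le))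
    have h3 : √(sg x) ≤ √S := Real.sqrt_le_sqrt hxS
    have h4 : |circ (u t) x| ≤ δ := by
      calc |circ (u t) x| ≤ 2 * √(sg x) * ‖u t x‖ := h1
        _ ≤ 2 * √S * (δ / (2 * √S + 1)) := by gcongr
        _ = δ * (2 * √S / (2 * √S + 1)) := by ring
        _ ≤ δ * 1 := by
          apply mul_le_mul_of_nonneg_left _ hδ.le
          rw [div_le_one (by positivity)]
          linarith
        _ = δ := mul_one _
    have h5 := hΦ0 t (hI t ht) _ ⟨sg_nonneg x, hxS⟩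
    have h6 : 0 < ε * (t - t₁ + 1) := mul_pos hε (by linarith [ht.1])
    linarith
  obtain ⟨D, hD⟩ : ∃ D : Set V, D = closedBall (0 : V) R ∩ {x | sg x ≤ S} := ⟨_, rfl⟩
  have hDc : IsCompact D := by
    rw [hD]
    exact (isCompact_closedBall (0 : V) R).inter_right
      (isClosed_le sm_sg.continuous continuous_const)
  have hmemD : ∀ y : V, y ∈ D ↔ ‖y‖ ≤ R ∧ sg y ≤ S := by
    intro y
    rw [hD, mem_inter_iff, mem_closedBall, dist_zero_right, mem_ofPred_eq]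
  have hFc : ContinuousOn F (Icc t₁ t₀ ×ˢ D) := by
    have h1 : ContinuousOn (fun z : ℝ × V => circ (u z.1) z.2) (Icc t₁ t₀ ×ˢ D) :=
      (circ_cont h).mono fun z hz => ⟨hI0 _ hz.1, trivial⟩
    have h5 : ContinuousOn (fun z : ℝ × V => Φ z.1 (sg z.2)) (Icc t₁ t₀ ×ˢ D) :=
      hΦc.comp (f := fun z : ℝ × V => (z.1, sg z.2)) (continuous_fst.prodMk
        (sm_sg.continuous.comp continuous_snd)).continuousOn
        fun z hz => ⟨hI _ hz.1, sg_nonneg z.2, ((hmemD _).1 hz.2).2⟩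
    rw [hF]
    exact (h1.abs.sub (continuousOn_const.add h5)).sub (by fun_prop)
  have hmem0 : (t₀, x₀) ∈ Icc t₁ t₀ ×ˢ D := ⟨⟨ht₀.1, le_rfl⟩, (hmemD _).2 ⟨by
      show ‖x₀‖ ≤ R
      rw [hR]
      exact le_max_right _ _, hx₀S⟩⟩
  obtain ⟨⟨t, x⟩, ⟨ht, hx⟩, hmx⟩ := (isCompact_Icc.prod hDc).exists_isMaxOn
    (s := Icc t₁ t₀ ×ˢ D) ⟨(t₀, x₀), hmem0⟩ hFc
  simp only at ht hx
  have hxS : sg x ≤ S := ((hmemD _).1 hx).2
  have hF0 : 0 < F (t, x) := by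
    refine lt_of_lt_of_le ?_ (hmx hmem0)
    rw [hF]
    exact hε2
  have hglob : ∀ t' ∈ Icc t₁ t₀, ∀ y, sg y ≤ S → F (t', y) ≤ F (t, x) := by
    intro t' ht' y hyS
    rcases le_or_gt ‖y‖ R with hy | hy
    · exact hmx (show (t', y) ∈ Icc t₁ t₀ ×ˢ D from ⟨ht', (hmemD _).2 ⟨hy, hyS⟩⟩)
    · exact (hout t' ht' y hyS hy).le.trans hF0.le
  have hεt : 0 < ε * (t - t₁ + 1) := mul_pos hε (by linarith [ht.1])
  have hFpos : δ + Φ t (sg x) < |circ (u t) x| := by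
    have h3 : 0 < |circ (u t) x| - (δ + Φ t (sg x)) - ε * (t - t₁ + 1) := by
      rw [hF] at hF0
      exact hF0
    linarith
  have ht0 : t₁ < t := by
    rcases eq_or_lt_of_le ht.1 with h1 | h1
    · exfalso
      rw [← h1] at hFpos
      have h3 := hin x hxS
      linarith
    · exact h1
  have htT : t ∈ Ioo t₁ T := ⟨ht0, ht.2.trans_lt ht₀.2⟩
  have htT0 : t ∈ Ioo 0 T := ⟨by linarith, ht.2.trans_lt ht₀.2⟩
  have hlox := hΦ0 t (hI t ht) _ ⟨sg_nonneg x, hxS⟩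
  have hσ : 0 < sg x := by
    rcases eq_or_lt_of_le (sg_nonneg x) with h1 | h1
    · exfalso
      have h2 := circ_le (u t) x
      rw [← h1, Real.sqrt_zero] at h2
      linarith
    · exact h1
  have hxS' : sg x < S := by
    rcases eq_or_lt_of_le hxS with h1 | h1
    · have h2 := hlat t (hI t ht) x h1
      linarith
    · exact h1
  have hax := h.axi t (Ioo_subset_Ico_self htT0)
  obtain ⟨θ, hθq⟩ := rolle (slicep h htT0) x
  obtain ⟨x', hx'⟩ : ∃ x', x' = rot θ x := ⟨_, rfl⟩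
  rw [← hx'] at hθq
  have hsx : sg x' = sg x := by rw [hx', sg_rot]
  have hσ' : 0 < sg x' := by rw [hsx]; exact hσ
  have hcx : circ (u t) x' = circ (u t) x := by rw [hx', circ_rot hax]
  have hFx : F (t, x) = |circ (u t) x'| - (δ + Φ t (sg x')) - ε * (t - t₁ + 1) := by
    rw [hF, hcx, hsx]
  have hxS2 : sg x' < S := by rw [hsx]; exact hxS'
  have hrec : ∀ t' ∈ Icc t₁ t, ∀ y, sg y ≤ sg x' → |circ (u t') y| ≤ |circ (u t) x'| := by
    intro t' ht' y hy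
    have h1 := hglob t' ⟨ht'.1, ht'.2.trans ht.2⟩ y (hy.trans hxS2.le)
    rw [hFx] at h1
    have h2 : F (t', y) = |circ (u t') y| - (δ + Φ t' (sg y)) - ε * (t' - t₁ + 1) := by rw [hF]
    rw [h2] at h1
    have h3 := hΦm t (hI t ht) t' ht' (sg x') ⟨hσ'.le, hxS2.le⟩ (sg y) ⟨sg_nonneg y, hy⟩
    have h4 : ε * (t' - t₁ + 1) ≤ ε * (t - t₁ + 1) :=
      mul_le_mul_of_nonneg_left (by linarith [ht'.2]) hε.le
    linarith
  obtain ⟨s, hs1, hs2⟩ : ∃ s : ℝ, |s| = 1 ∧ s * circ (u t) x' = |circ (u t) x'| := by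
    rcases le_total 0 (circ (u t) x') with h1 | h1
    · exact ⟨1, by simp, by rw [abs_of_nonneg h1, one_mul]⟩
    · exact ⟨-1, by simp, by rw [abs_of_nonpos h1]; ring⟩
  have hsc : ∀ v : V → V, ∀ x, s * circ v x ≤ |circ v x| := by
    intro v x
    calc s * circ v x ≤ |s * circ v x| := le_abs_self _
      _ = |circ v x| := by rw [abs_mul, hs1, one_mul]
  have hgrad : ∀ v : V, s * fderiv ℝ (circ (u t)) x' v
      = Φ₁ t (sg x') * (2 * x' 0 * v 0 + 2 * x' 1 * v 1) := by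
    have hlm0 : IsLocalMax (fun y => s * circ (u t) y - Φ t (sg y)) x' := by
      have h3' : ∀ᶠ y in 𝓝 x', sg y < S := ev_sg (P := fun r => r < S) (gt_mem_nhds hxS2)
      filter_upwards [h3'] with y hyS
      have h1 := hglob t ht y hyS.le
      rw [hFx] at h1
      have h2 : F (t, y) = |circ (u t) y| - (δ + Φ t (sg y)) - ε * (t - t₁ + 1) := by rw [hF]
      rw [h2] at h1
      have h6 := hsc (u t) y
      rw [hs2]
      linarith
    have hcd : HasFDerivAt (circ (u t)) (fderiv ℝ (circ (u t)) x') x' :=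
      (((sm_circ (slice0 h (Ioo_subset_Ico_self htT0))).differentiable
        (by norm_cast)) x').hasFDerivAt
    have hPd : HasFDerivAt (fun y => Φ t (sg y)) _ x' :=
      (hΦ₁ t htT (sg x') ⟨hσ', hxS2⟩).comp_hasFDerivAt x' (sg_hd x')
    have h0 := hlm0.hasFDerivAt_eq_zero ((hcd.const_mul s).sub hPd)
    intro v
    have h1 := congrArg (fun L : V →L[ℝ] ℝ => L v) h0
    simp only [sub_apply, smul_apply, add_apply, smul_eq_mul,
      ContinuousLinearMap.proj_apply, zero_apply] at h1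
    linarith
  have hss : s * s = 1 := by rw [← sq, ← sq_abs, hs1, one_pow]
  have hcs : circ (u t) x' = s * |circ (u t) x'| := by
    rw [← hs2, ← mul_assoc, hss, one_mul]
  obtain ⟨χ, χ₁, c₂, d', ζ, hMj, hkey⟩ := hmaj t htT x' hσ' hxS2
    (by rw [hcx, hsx]; exact hFpos) hrec
    (by
      have h1 := hgrad ![0, 0, 1]
      have h2 : s ≠ 0 := by
        intro h3
        rw [h3] at hss
        norm_num at hss
      have h3 : s * fderiv ℝ (circ (u t)) x' ![0, 0, 1] = 0 := by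
        rw [h1]
        simp
      exact (mul_eq_zero.1 h3).resolve_left h2)
    (by
      have h1 := hgrad ![x' 0, x' 1, 0]
      have h2 : (2 * x' 0 * (![x' 0, x' 1, 0] : V) 0 + 2 * x' 1 * (![x' 0, x' 1, 0] : V) 1)
          = 2 * sg x' := by
        show 2 * x' 0 * x' 0 + 2 * x' 1 * x' 1 = 2 * (x' 0 ^ 2 + x' 1 ^ 2)
        ring
      rw [h2] at h1
      calc circ (u t) x' * fderiv ℝ (circ (u t)) x' ![x' 0, x' 1, 0]
          = s * |circ (u t) x'| * fderiv ℝ (circ (u t)) x' ![x' 0, x' 1, 0] := by rw [← hcs]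
        _ = |circ (u t) x'| * (s * fderiv ℝ (circ (u t)) x' ![x' 0, x' 1, 0]) := by ring
        _ = _ := by
          rw [h1]
          ring)
  have hWd : ContDiffAt ℝ 2 (fun y => 1 * χ (sg y)) x' :=
    contDiffAt_const.mul (hMj.smooth.comp _ (sm_sg.contDiffAt.of_le (by norm_cast)))
  have hlm : IsLocalMax (fun y => s * circ (u t) y - 1 * χ (sg y)) x' := by
    have h3 : ∀ᶠ y in 𝓝 x', Φ t (sg y) ≤ χ (sg y) :=
      ev_sg (P := fun r => Φ t r ≤ χ r) hMj.le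
    have h3' : ∀ᶠ y in 𝓝 x', sg y < S := ev_sg (P := fun r => r < S) (gt_mem_nhds hxS2)
    filter_upwards [h3, h3'] with y hy hyS
    have h1 := hglob t ht y hyS.le
    rw [hFx] at h1
    have h2 : F (t, y) = |circ (u t) y| - (δ + Φ t (sg y)) - ε * (t - t₁ + 1) := by rw [hF]
    rw [h2] at h1
    have h5 := hMj.eq
    have h6 := hsc (u t) y
    rw [h5, hs2]
    linarith
  have hθ := touch hν (slice0 h (Ioo_subset_Ico_self htT0)) hax
    (d := fun i => deriv (fun τ => u τ x' i) t) (fun i => h.momentum t htT0 x' i) hθq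
    hσ' hWd hlm
  have hd1 := hMj.hd1
  have hd2 := hMj.hd2
  have hpdW : ∀ j, pd j (fun y => 1 * χ (sg y)) x' = 1 * (χ₁ (sg x') * (2 * cj j * x' j)) :=
    fun j => pd_maj 1 hd1.self_of_nhds j
  rw [lap_maj 1 hd1 hd2, hpdW 0, hpdW 1] at hθ
  simp only [hpdW] at hθ
  obtain ⟨L1, hL1⟩ : ∃ L1 : ℝ, L1 = χ₁ (sg x') := ⟨_, rfl⟩
  rw [← hL1] at hθ hkey
  have hom : 2 * (x' 0 * (1 * (L1 * (2 * cj 0 * x' 0)))
      + x' 1 * (1 * (L1 * (2 * cj 1 * x' 1)))) / sg x' = 4 * L1 := by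
    rw [div_eq_iff hσ'.ne', cj0, cj1]
    unfold sg
    ring
  rw [hom] at hθ
  have hsum : ∑ j, u t x' j * (1 * (L1 * (2 * cj j * x' j)))
      = 2 * L1 * (x' 0 * u t x' 0 + x' 1 * u t x' 1) := by
    simp only [Fin.sum_univ_three, cj0, cj1, cj2]
    ring
  rw [hsum] at hθ
  -- the time derivative
  have hlin : HasDerivAt (fun τ => ε * (τ - t₁ + 1)) ε t := by
    have h1 : HasDerivAt (fun τ : ℝ => τ - t₁ + 1) 1 t :=
      ((hasDerivAt_id t).sub_const t₁).add_const 1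
    exact (h1.const_mul ε).congr_deriv (by ring)
  have hder := (((circ_hd h htT0 x').const_mul s).sub (hMj.td.const_add δ)).sub hlin
  have hnn := deriv_nonneg_ev hder (by
    filter_upwards [hMj.tle, Ioo_mem_nhdsLT ht0] with τ h3 hτ
    have h1 := hglob τ ⟨hτ.1.le, hτ.2.le.trans ht.2⟩ x' hxS2.le
    rw [hFx] at h1
    have h2 : F (τ, x') = |circ (u τ) x'| - (δ + Φ τ (sg x')) - ε * (τ - t₁ + 1) := by rw [hF]
    rw [h2] at h1
    have h6 := hMj.teq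
    have h7 := hsc (u τ) x'
    show s * circ (u τ) x' - (δ + ζ τ) - ε * (τ - t₁ + 1)
      ≤ s * circ (u t) x' - (δ + ζ t) - ε * (t - t₁ + 1)
    rw [h6, hs2]
    linarith)
  nlinarith

end Pool.Agent.NH62.RC
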