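import Mathlib

/-!
The weight of an inflow profile (helper62).
-/

set_option autoImplicit false

open MeasureTheory Set Filter Topology intervalIntegral
open scoped ContDiff

namespace Pool.Agent.NH62.RC

/-- `∫_s^{r₀} (2 - β(τ)) dτ / τ` -/
noncomputable def Ex (β : ℝ → ℝ) (r₀ s : ℝ) : ℝ := ∫ τ in s..r₀, (2 - β τ) / τ

/-- `∫_0^r exp (-Ex s) ds / s` -/
noncomputable def wt (β : ℝ → ℝ) (r₀ r : ℝ) : ℝ := ∫ s in (0 : ℝ)..r, Real.exp (-Ex β r₀ s) / s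

section
variable {β : ℝ → ℝ} {r₀ : ℝ}

lemma cont_q (hβ : ContinuousOn β (Ioc 0 r₀)) :
    ContinuousOn (fun τ => (2 - β τ) / τ) (Ioc 0 r₀) :=
  (continuousOn_const.sub hβ).div continuousOn_id fun _ hτ => hτ.1.ne'

lemma int_q (hβ : ContinuousOn β (Ioc 0 r₀)) {s ρ : ℝ} (hs : 0 < s) (hsρ : s ≤ ρ) (hρ : ρ ≤ r₀) :
    IntervalIntegrable (fun τ => (2 - β τ) / τ) volume s ρ := by
  apply ContinuousOn.intervalIntegrable
  rw [uIcc_of_le hsρ]
  exact (cont_q hβ).mono fun τ hτ => ⟨hs.trans_le hτ.1, hτ.2.trans hρ⟩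

lemma Ex_hd (hβ : ContinuousOn β (Ioc 0 r₀)) {s : ℝ} (hs : 0 < s) (hsr : s < r₀) :
    HasDerivAt (Ex β r₀) (-((2 - β s) / s)) s := by
  have h1 : ContinuousOn (fun τ => (2 - β τ) / τ) (Ioo 0 r₀) :=
    (cont_q hβ).mono Ioo_subset_Ioc_self
  exact integral_hasDerivAt_left (int_q hβ hs hsr.le le_rfl)
    (h1.stronglyMeasurableAtFilter isOpen_Ioo s ⟨hs, hsr⟩)
    (h1.continuousAt (Ioo_mem_nhds hs hsr))

lemma Ex_le (hβ : ContinuousOn β (Ioc 0 r₀)) (hβ0 : ∀ r ∈ Ioc 0 r₀, 0 ≤ β r) {s ρ : ℝ}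
    (hs : 0 < s) (hsρ : s ≤ ρ) (hρ : ρ ≤ r₀) :
    Ex β r₀ s ≤ Ex β r₀ ρ + 2 * Real.log (ρ / s) := by
  have hρ0 : 0 < ρ := hs.trans_le hsρ
  have h1 : Ex β r₀ s = (∫ τ in s..ρ, (2 - β τ) / τ) + Ex β r₀ ρ :=
    (integral_add_adjacent_intervals (int_q hβ hs hsρ hρ) (int_q hβ hρ0 hρ le_rfl)).symm
  have h2 : (∫ τ in s..ρ, (2 - β τ) / τ) ≤ ∫ τ in s..ρ, 2 * (1 / τ) := by
    apply integral_mono_on hsρ (int_q hβ hs hsρ hρ)
    · apply ContinuousOn.intervalIntegrable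
      rw [uIcc_of_le hsρ]
      exact continuousOn_const.mul (continuousOn_const.div continuousOn_id
        fun τ hτ => (hs.trans_le hτ.1).ne')
    · intro τ hτ
      have hτ0 : 0 < τ := hs.trans_le hτ.1
      rw [mul_one_div]
      apply div_le_div_of_nonneg_right _ hτ0.le
      linarith [hβ0 τ ⟨hτ0, hτ.2.trans hρ⟩]
  have h3 : (∫ τ in s..ρ, 2 * (1 / τ)) = 2 * Real.log (ρ / s) := by
    rw [intervalIntegral.integral_const_mul, integral_one_div_of_pos hs hρ0]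
  linarith

lemma exp_le (hβ : ContinuousOn β (Ioc 0 r₀)) (hβ0 : ∀ r ∈ Ioc 0 r₀, 0 ≤ β r) {s ρ : ℝ}
    (hs : 0 < s) (hsρ : s ≤ ρ) (hρ : ρ ≤ r₀) :
    Real.exp (-Ex β r₀ ρ) * (s / ρ) ^ 2 ≤ Real.exp (-Ex β r₀ s) := by
  have hρ0 : 0 < ρ := hs.trans_le hsρ
  have h1 : (s / ρ) ^ 2 = Real.exp (-(2 * Real.log (ρ / s))) := by
    have h2 : Real.log (ρ / s) = -Real.log (s / ρ) := by
      rw [← Real.log_inv, inv_div]
    rw [h2, ← Real.exp_log (show 0 < (s / ρ) ^ 2 by positivity), Real.log_pow]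
    congr 1
    push_cast
    ring
  rw [h1, ← Real.exp_add]
  apply Real.exp_le_exp.2
  have := Ex_le hβ hβ0 hs hsρ hρ
  linarith

variable (hint : IntervalIntegrable (fun s => Real.exp (-Ex β r₀ s) / s) volume 0 r₀)
include hint

lemma wt_int (hr₀ : 0 < r₀) {ρ : ℝ} (h0 : 0 ≤ ρ) (h1 : ρ ≤ r₀) :
    IntervalIntegrable (fun s => Real.exp (-Ex β r₀ s) / s) volume 0 ρ := by
  apply hint.mono_set
  rw [uIcc_of_le h0, uIcc_of_le hr₀.le]
  exact Icc_subset_Icc_right h1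

lemma wt_hd (hβ : ContinuousOn β (Ioc 0 r₀)) {ρ : ℝ} (h0 : 0 < ρ) (h1 : ρ < r₀) :
    HasDerivAt (wt β r₀) (Real.exp (-Ex β r₀ ρ) / ρ) ρ := by
  have h2 : ContinuousOn (fun s => Real.exp (-Ex β r₀ s) / s) (Ioo 0 r₀) := by
    apply ContinuousOn.div _ continuousOn_id fun s hs => hs.1.ne'
    apply Real.continuous_exp.comp_continuousOn
    exact fun s hs => (Ex_hd hβ hs.1 hs.2).continuousAt.continuousWithinAt.neg
  exact integral_hasDerivAt_right (wt_int hint (h0.trans h1) h0.le h1.le)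
    (h2.stronglyMeasurableAtFilter isOpen_Ioo ρ ⟨h0, h1⟩)
    (h2.continuousAt (Ioo_mem_nhds h0 h1))

lemma wt_cont (hr₀ : 0 < r₀) : ContinuousOn (wt β r₀) (Icc 0 r₀) := by
  have h1 : IntegrableOn (fun s => Real.exp (-Ex β r₀ s) / s) (uIcc 0 r₀) volume := by
    rw [uIcc_of_le hr₀.le, integrableOn_Icc_iff_integrableOn_Ioc]
    exact (intervalIntegrable_iff_integrableOn_Ioc_of_le hr₀.le).1 hint
  have h2 := continuousOn_primitive_interval h1
  rwa [uIcc_of_le hr₀.le] at h2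

omit hint in
lemma wt_zero : wt β r₀ 0 = 0 := by
  unfold wt
  exact integral_same

lemma wt_mono (hβ : ContinuousOn β (Ioc 0 r₀)) (hr₀ : 0 < r₀) :
    MonotoneOn (wt β r₀) (Icc 0 r₀) := by
  apply monotoneOn_of_deriv_nonneg (convex_Icc 0 r₀) (wt_cont hint hr₀)
  · rw [interior_Icc]
    exact fun s hs => (wt_hd hint hβ hs.1 hs.2).differentiableAt.differentiableWithinAt
  · rw [interior_Icc]
    intro s hs
    rw [(wt_hd hint hβ hs.1 hs.2).deriv]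
    have := hs.1
    positivity

lemma wt_ge (hβ : ContinuousOn β (Ioc 0 r₀)) (hβ0 : ∀ r ∈ Ioc 0 r₀, 0 ≤ β r) (hr₀ : 0 < r₀)
    {ρ : ℝ} (h0 : 0 < ρ) (h1 : ρ ≤ r₀) : Real.exp (-Ex β r₀ ρ) / 2 ≤ wt β r₀ ρ := by
  have h2 : (∫ s in (0 : ℝ)..ρ, Real.exp (-Ex β r₀ ρ) / ρ ^ 2 * s) = Real.exp (-Ex β r₀ ρ) / 2 := by
    rw [intervalIntegral.integral_const_mul, integral_id]
    field_simp
    ring
  rw [← h2]
  unfold wt
  apply integral_mono_on h0.le _ (wt_int hint hr₀ h0.le h1)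
  · intro s hs
    rcases eq_or_lt_of_le hs.1 with h3 | h3
    · rw [← h3]
      simp
    · have h4 := exp_le hβ hβ0 h3 hs.2 h1
      rw [le_div_iff₀ h3]
      calc Real.exp (-Ex β r₀ ρ) / ρ ^ 2 * s * s = Real.exp (-Ex β r₀ ρ) * (s / ρ) ^ 2 := by
            field_simp
        _ ≤ _ := h4
  · apply Continuous.intervalIntegrable
    fun_prop

lemma wt_sq (hβ : ContinuousOn β (Ioc 0 r₀)) (hβ0 : ∀ r ∈ Ioc 0 r₀, 0 ≤ β r) (hr₀ : 0 < r₀)
    {ρ : ℝ} (h0 : 0 < ρ) (h1 : ρ ≤ r₀) : ρ ^ 2 / (2 * r₀ ^ 2) ≤ wt β r₀ ρ := by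
  refine le_trans ?_ (wt_ge hint hβ hβ0 hr₀ h0 h1)
  have h2 := exp_le hβ hβ0 h0 h1 le_rfl
  have h3 : Ex β r₀ r₀ = 0 := by
    unfold Ex
    exact integral_same
  rw [h3, neg_zero, Real.exp_zero, one_mul] at h2
  have h4 : ρ ^ 2 / (2 * r₀ ^ 2) = (ρ / r₀) ^ 2 / 2 := by
    field_simp
  rw [h4]
  linarith

lemma wt_pos (hβ : ContinuousOn β (Ioc 0 r₀)) (hβ0 : ∀ r ∈ Ioc 0 r₀, 0 ≤ β r) (hr₀ : 0 < r₀)
    {ρ : ℝ} (h0 : 0 < ρ) (h1 : ρ ≤ r₀) : 0 < wt β r₀ ρ :=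
  lt_of_lt_of_le (by positivity) (wt_ge hint hβ hβ0 hr₀ h0 h1)

/-! ### as a function of the square of the distance -/

lemma sq_hd (hβ : ContinuousOn β (Ioc 0 r₀)) {σ : ℝ} (h0 : 0 < σ) (h1 : √σ < r₀) :
    HasDerivAt (fun σ => wt β r₀ (√σ)) (Real.exp (-Ex β r₀ (√σ)) / (2 * σ)) σ := by
  have hs : 0 < √σ := Real.sqrt_pos.2 h0
  have h2 := (wt_hd hint hβ hs h1).comp σ (Real.hasDerivAt_sqrt h0.ne')
  refine h2.congr_deriv ?_
  have h3 : √σ * √σ = σ := Real.mul_self_sqrt h0.le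
  rw [div_mul_div_comm, mul_one]
  congr 1
  linear_combination 2 * h3

omit hint in
lemma sq_hd2 (hβ : ContinuousOn β (Ioc 0 r₀)) {σ : ℝ} (h0 : 0 < σ) (h1 : √σ < r₀) :
    HasDerivAt (fun σ => Real.exp (-Ex β r₀ (√σ)) / (2 * σ))
      (-(β (√σ) * Real.exp (-Ex β r₀ (√σ)) / (4 * σ ^ 2))) σ := by
  have hs : 0 < √σ := Real.sqrt_pos.2 h0
  have h2' : HasDerivAt (fun σ => Ex β r₀ (√σ)) (-((2 - β (√σ)) / √σ) * (1 / (2 * √σ))) σ :=
    (Ex_hd hβ hs h1).comp σ (Real.hasDerivAt_sqrt h0.ne')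
  have h2 : HasDerivAt (fun σ => Real.exp (-Ex β r₀ (√σ)))
      (Real.exp (-Ex β r₀ (√σ)) * -(-((2 - β (√σ)) / √σ) * (1 / (2 * √σ)))) σ := h2'.fun_neg.exp
  have h3 : HasDerivAt (fun σ : ℝ => 2 * σ) 2 σ := by
    simpa using (hasDerivAt_id σ).const_mul (2 : ℝ)
  have h4 := h2.fun_div h3 (by positivity)
  refine h4.congr_deriv ?_
  obtain ⟨w, hw⟩ : ∃ w, w = √σ := ⟨_, rfl⟩
  have hσ : σ = w ^ 2 := by rw [hw, Real.sq_sqrt h0.le]
  rw [← hw] at hs ⊢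
  obtain ⟨e, he⟩ : ∃ e, e = Real.exp (-Ex β r₀ w) := ⟨_, rfl⟩
  rw [← he, hσ]
  field_simp
  ring

lemma sq_smooth (hβ : ContinuousOn β (Ioc 0 r₀)) (hr₀ : 0 < r₀) {σ : ℝ} (h0 : 0 < σ)
    (h1 : √σ < r₀) : ContDiffAt ℝ 2 (fun σ => wt β r₀ (√σ)) σ := by
  have hU : IsOpen (Ioo 0 (r₀ ^ 2)) := isOpen_Ioo
  have hmem : ∀ s ∈ Ioo 0 (r₀ ^ 2), 0 < s ∧ √s < r₀ := fun s hs =>
    ⟨hs.1, by
      rw [← Real.sqrt_sq hr₀.le]
      exact Real.sqrt_lt_sqrt hs.1.le hs.2⟩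
  have hσU : σ ∈ Ioo 0 (r₀ ^ 2) := ⟨h0, by
    rw [← Real.sq_sqrt h0.le]
    exact pow_lt_pow_left₀ h1 (Real.sqrt_nonneg _) (by norm_num)⟩
  have hc1 : ContDiffOn ℝ 1 (fun σ => Real.exp (-Ex β r₀ (√σ)) / (2 * σ)) (Ioo 0 (r₀ ^ 2)) := by
    rw [show (1 : WithTop ℕ∞) = 0 + 1 by norm_num, contDiffOn_succ_iff_deriv_of_isOpen hU]
    refine ⟨fun s hs => (sq_hd2 hβ (hmem s hs).1 (hmem s hs).2).differentiableAt.differentiableWithinAt,
      by simp, ?_⟩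
    rw [contDiffOn_zero]
    have hE : ContinuousOn (fun s => Real.exp (-Ex β r₀ (√s))) (Ioo 0 (r₀ ^ 2)) := by
      intro s hs
      obtain ⟨a, b⟩ := hmem s hs
      have h2 := (((Ex_hd hβ (Real.sqrt_pos.2 a) b).comp s
        (Real.hasDerivAt_sqrt a.ne')).neg).exp
      exact h2.continuousAt.continuousWithinAt
    have hB : ContinuousOn (fun s => β (√s)) (Ioo 0 (r₀ ^ 2)) :=
      hβ.comp (f := fun s => √s) Real.continuous_sqrt.continuousOn
        fun s hs => ⟨Real.sqrt_pos.2 (hmem s hs).1, (hmem s hs).2.le⟩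
    have h2 : ContinuousOn (fun s => -(β (√s) * Real.exp (-Ex β r₀ (√s)) / (4 * s ^ 2)))
        (Ioo 0 (r₀ ^ 2)) := by
      refine ((hB.mul hE).div (by fun_prop) fun s hs => ?_).neg
      have := hs.1
      positivity
    exact h2.congr fun s hs => (sq_hd2 hβ (hmem s hs).1 (hmem s hs).2).deriv
  have hc2 : ContDiffOn ℝ 2 (fun σ => wt β r₀ (√σ)) (Ioo 0 (r₀ ^ 2)) := by
    rw [show (2 : WithTop ℕ∞) = 1 + 1 by norm_num, contDiffOn_succ_iff_deriv_of_isOpen hU]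
    refine ⟨fun s hs => (sq_hd hint hβ (hmem s hs).1 (hmem s hs).2).differentiableAt.differentiableWithinAt,
      by simp, ?_⟩
    exact hc1.congr fun s hs => (sq_hd hint hβ (hmem s hs).1 (hmem s hs).2).deriv
  exact hc2.contDiffAt (hU.mem_nhds hσU)

end

/-! ### the critical case -/

lemma pow_hd {κ s : ℝ} (hκ : 1 < κ) (hs : 0 < s) (hs1 : s < 1) :
    HasDerivAt (fun s => |Real.log s| ^ (1 - κ) / (κ - 1)) (|Real.log s| ^ (-κ) / s) s := by
  have hL : Real.log s < 0 := Real.log_neg hs hs1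
  have h1 : HasDerivAt (fun s => |Real.log s|) (-(1 / s)) s := by
    have h2 : HasDerivAt (fun s => -Real.log s) (-(1 / s)) s := by
      have := (Real.hasDerivAt_log hs.ne').neg
      rwa [← one_div] at this
    refine h2.congr_of_eventuallyEq ?_
    filter_upwards [Ioo_mem_nhds hs hs1] with r hr
    exact abs_of_neg (Real.log_neg hr.1 hr.2)
  have h3 := h1.rpow_const (p := 1 - κ) (Or.inl (abs_pos.2 hL.ne).ne')
  refine (h3.div_const (κ - 1)).congr_deriv ?_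
  have e : 1 - κ - 1 = -κ := by ring
  rw [e]
  have h4 : κ - 1 ≠ 0 := by linarith
  field_simp
  ring

lemma pow_cont {κ r₀ : ℝ} (hκ : 1 < κ) (hr₀ : 0 < r₀) (hr1 : r₀ < 1) :
    ContinuousOn (fun s => |Real.log s| ^ (1 - κ) / (κ - 1)) (Icc 0 r₀) := by
  intro s hs
  rcases eq_or_lt_of_le hs.1 with h0 | h0
  · rw [← h0]
    have h1 : |Real.log 0| ^ (1 - κ) / (κ - 1) = 0 := by
      rw [Real.log_zero, abs_zero, Real.zero_rpow (by linarith), zero_div]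
    have h2 : Tendsto (fun s => |Real.log s| ^ (1 - κ) / (κ - 1)) (𝓝[>] 0) (𝓝 0) := by
      have h3 : Tendsto (fun s : ℝ => |Real.log s|) (𝓝[>] 0) atTop :=
        tendsto_abs_atBot_atTop.comp Real.tendsto_log_nhdsGT_zero
      have h4 : Tendsto (fun x : ℝ => x ^ (1 - κ)) atTop (𝓝 0) := by
        have := tendsto_rpow_neg_atTop (show 0 < κ - 1 by linarith)
        simpa using this
      have h5 := (h4.comp h3).div_const (κ - 1)
      rwa [zero_div] at h5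
    have h6 : ContinuousWithinAt (fun s => |Real.log s| ^ (1 - κ) / (κ - 1)) (Ioi 0) 0 := by
      show Tendsto _ _ _
      simp only [h1]
      exact h2
    have h7 : ContinuousWithinAt (fun s => |Real.log s| ^ (1 - κ) / (κ - 1)) (Ici 0) 0 := by
      rw [← Ioi_insert]
      exact h6.insert
    exact h7.mono Icc_subset_Ici_self
  · exact (pow_hd hκ h0 (hs.2.trans_lt hr1)).continuousAt.continuousWithinAt

theorem crit {β : ℝ → ℝ} {r₀ κ C : ℝ} (hβ : ContinuousOn β (Ioc 0 r₀)) (hr₀ : 0 < r₀)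
    (hr1 : r₀ < 1) (hκ : 1 < κ)
    (h : ∀ s ∈ Ioo 0 r₀, κ * Real.log |Real.log s| - C ≤ Ex β r₀ s) :
    IntervalIntegrable (fun s => Real.exp (-Ex β r₀ s) / s) volume 0 r₀ ∧
      ∀ ρ ∈ Ioo 0 r₀, wt β r₀ ρ ≤ Real.exp C / (κ - 1) * |Real.log ρ| ^ (1 - κ) := by
  have hle : ∀ s ∈ Ioo 0 r₀, Real.exp (-Ex β r₀ s) / s ≤ Real.exp C * (|Real.log s| ^ (-κ) / s) := by
    intro s hs
    have hL : 0 < |Real.log s| := abs_pos.2 (Real.log_neg hs.1 (hs.2.trans hr1)).ne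
    rw [← mul_div_assoc]
    apply div_le_div_of_nonneg_right _ hs.1.le
    rw [Real.rpow_def_of_pos hL, ← Real.exp_add]
    apply Real.exp_le_exp.2
    have := h s hs
    linarith
  have hg : IntegrableOn (fun s => |Real.log s| ^ (-κ) / s) (Ioc 0 r₀) volume :=
    intervalIntegral.integrableOn_deriv_of_nonneg (pow_cont hκ hr₀ hr1)
      (fun s hs => pow_hd hκ hs.1 (hs.2.trans hr1))
      (fun s hs => div_nonneg (Real.rpow_nonneg (abs_nonneg _) _) hs.1.le)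
  have hint : IntervalIntegrable (fun s => Real.exp (-Ex β r₀ s) / s) volume 0 r₀ := by
    rw [intervalIntegrable_iff_integrableOn_Ioc_of_le hr₀.le, integrableOn_Ioc_iff_integrableOn_Ioo]
    have hg2 : IntegrableOn (fun s => Real.exp C * (|Real.log s| ^ (-κ) / s)) (Ioo 0 r₀) volume :=
      (hg.mono_set Ioo_subset_Ioc_self).const_mul _
    refine hg2.mono' ?_ ?_
    · apply ContinuousOn.aestronglyMeasurable _ measurableSet_Ioo
      apply ContinuousOn.div _ continuousOn_id fun s hs => hs.1.ne'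
      apply Real.continuous_exp.comp_continuousOn
      exact fun s hs => (Ex_hd hβ hs.1 hs.2).continuousAt.continuousWithinAt.neg
    · rw [ae_restrict_iff' measurableSet_Ioo]
      refine Eventually.of_forall fun s hs => ?_
      rw [Real.norm_of_nonneg (div_nonneg (Real.exp_pos _).le hs.1.le)]
      exact hle s hs
  refine ⟨hint, fun ρ hρ => ?_⟩
  have h1 : (∫ s in (0 : ℝ)..ρ, |Real.log s| ^ (-κ) / s) = |Real.log ρ| ^ (1 - κ) / (κ - 1) := by
    have hsub : Icc 0 ρ ⊆ Icc 0 r₀ := Icc_subset_Icc_right hρ.2.le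
    rw [integral_eq_sub_of_hasDerivAt_of_le hρ.1.le ((pow_cont hκ hr₀ hr1).mono hsub)
      (fun s hs => pow_hd hκ hs.1 ((hs.2.trans hρ.2).trans hr1))
      ((intervalIntegrable_iff_integrableOn_Ioc_of_le hρ.1.le).2
        (hg.mono_set (Ioc_subset_Ioc_right hρ.2.le)))]
    rw [Real.log_zero, abs_zero, Real.zero_rpow (by linarith)]
    ring
  calc wt β r₀ ρ ≤ ∫ s in (0 : ℝ)..ρ, Real.exp C * (|Real.log s| ^ (-κ) / s) := by
        unfold wt
        apply integral_mono_on_of_le_Ioo hρ.1.le (wt_int hint hr₀ hρ.1.le hρ.2.le)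
        · exact ((intervalIntegrable_iff_integrableOn_Ioc_of_le hρ.1.le).2
            (hg.mono_set (Ioc_subset_Ioc_right hρ.2.le))).const_mul _
        · exact fun s hs => hle s ⟨hs.1, hs.2.trans hρ.2⟩
    _ = _ := by
      rw [intervalIntegral.integral_const_mul, h1]
      ring

lemma loglog_hd {s : ℝ} (hs : 0 < s) (hs1 : s < 1) :
    HasDerivAt (fun s => -Real.log |Real.log s|) (1 / (|Real.log s| * s)) s := by
  have hL : Real.log s < 0 := Real.log_neg hs hs1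
  have h1 : HasDerivAt (fun s => |Real.log s|) (-(1 / s)) s := by
    have h2 : HasDerivAt (fun s => -Real.log s) (-(1 / s)) s := by
      have := (Real.hasDerivAt_log hs.ne').neg
      rwa [← one_div] at this
    refine h2.congr_of_eventuallyEq ?_
    filter_upwards [Ioo_mem_nhds hs hs1] with r hr
    exact abs_of_neg (Real.log_neg hr.1 hr.2)
  have h0 : |Real.log s| ≠ 0 := (abs_pos.2 hL.ne).ne'
  refine ((h1.log h0).neg).congr_deriv ?_
  field_simp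

theorem crit_eq {β : ℝ → ℝ} {r₀ κ : ℝ} (hr₀ : 0 < r₀) (hr1 : r₀ < 1) (hκ : 1 < κ)
    (h : ∀ s ∈ Ioc 0 r₀, β s = 2 - κ / |Real.log s|) :
    ∀ ρ ∈ Ioo 0 r₀, wt β r₀ ρ = |Real.log r₀| ^ κ / (κ - 1) * |Real.log ρ| ^ (1 - κ) ∧
      Real.exp (-Ex β r₀ ρ) / wt β r₀ ρ = (κ - 1) / |Real.log ρ| := by
  have hL0 : 0 < |Real.log r₀| := abs_pos.2 (Real.log_neg hr₀ hr1).ne
  have hE : ∀ s ∈ Ioo 0 r₀, Real.exp (-Ex β r₀ s) = |Real.log r₀| ^ κ * |Real.log s| ^ (-κ) := by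
    intro s hs
    have hL : 0 < |Real.log s| := abs_pos.2 (Real.log_neg hs.1 (hs.2.trans hr1)).ne
    have h1 : Ex β r₀ s = κ * (Real.log |Real.log s| - Real.log |Real.log r₀|) := by
      unfold Ex
      have h2 : (∫ τ in s..r₀, (2 - β τ) / τ) = ∫ τ in s..r₀, κ * (1 / (|Real.log τ| * τ)) := by
        apply intervalIntegral.integral_congr
        intro τ hτ
        rw [uIcc_of_le hs.2.le] at hτ
        have hτ0 : 0 < τ := hs.1.trans_le hτ.1
        have hτL : 0 < |Real.log τ| := abs_pos.2 (Real.log_neg hτ0 (hτ.2.trans_lt hr1)).ne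
        show (2 - β τ) / τ = κ * (1 / (|Real.log τ| * τ))
        rw [h τ ⟨hτ0, hτ.2⟩]
        field_simp
        ring
      rw [h2, intervalIntegral.integral_const_mul]
      have hc : ContinuousOn (fun τ => 1 / (|Real.log τ| * τ)) (Icc s r₀) := by
        apply ContinuousOn.div continuousOn_const
        · apply ContinuousOn.mul _ continuousOn_id
          exact (Real.continuousOn_log.mono fun τ hτ => (hs.1.trans_le hτ.1).ne').abs
        · intro τ hτ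
          have hτ0 : 0 < τ := hs.1.trans_le hτ.1
          have hτL : 0 < |Real.log τ| := abs_pos.2 (Real.log_neg hτ0 (hτ.2.trans_lt hr1)).ne
          positivity
      rw [integral_eq_sub_of_hasDerivAt (f := fun s => -Real.log |Real.log s|)
        (fun τ hτ => by
          rw [uIcc_of_le hs.2.le] at hτ
          exact loglog_hd (hs.1.trans_le hτ.1) (hτ.2.trans_lt hr1))
        (by
          apply ContinuousOn.intervalIntegrable
          rwa [uIcc_of_le hs.2.le])]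
      ring
    rw [h1, Real.rpow_def_of_pos hL0, Real.rpow_def_of_pos hL, ← Real.exp_add]
    congr 1
    ring
  intro ρ hρ
  have hLρ : 0 < |Real.log ρ| := abs_pos.2 (Real.log_neg hρ.1 (hρ.2.trans hr1)).ne
  have hg : IntegrableOn (fun s => |Real.log s| ^ (-κ) / s) (Ioc 0 ρ) volume :=
    intervalIntegral.integrableOn_deriv_of_nonneg
      ((pow_cont hκ hr₀ hr1).mono (Icc_subset_Icc_right hρ.2.le))
      (fun s hs => pow_hd hκ hs.1 ((hs.2.trans hρ.2).trans hr1))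
      (fun s hs => div_nonneg (Real.rpow_nonneg (abs_nonneg _) _) hs.1.le)
  have h1 : (∫ s in (0 : ℝ)..ρ, |Real.log s| ^ (-κ) / s) = |Real.log ρ| ^ (1 - κ) / (κ - 1) := by
    have hsub : Icc 0 ρ ⊆ Icc 0 r₀ := Icc_subset_Icc_right hρ.2.le
    rw [integral_eq_sub_of_hasDerivAt_of_le hρ.1.le ((pow_cont hκ hr₀ hr1).mono hsub)
      (fun s hs => pow_hd hκ hs.1 ((hs.2.trans hρ.2).trans hr1))
      ((intervalIntegrable_iff_integrableOn_Ioc_of_le hρ.1.le).2 hg)]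
    rw [Real.log_zero, abs_zero, Real.zero_rpow (by linarith)]
    ring
  have h2 : wt β r₀ ρ = |Real.log r₀| ^ κ / (κ - 1) * |Real.log ρ| ^ (1 - κ) := by
    unfold wt
    have h3 : (∫ s in (0 : ℝ)..ρ, Real.exp (-Ex β r₀ s) / s)
        = ∫ s in (0 : ℝ)..ρ, |Real.log r₀| ^ κ * (|Real.log s| ^ (-κ) / s) := by
      rw [intervalIntegral.integral_of_le hρ.1.le, intervalIntegral.integral_of_le hρ.1.le]
      apply setIntegral_congr_fun measurableSet_Ioc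
      intro s hs
      show Real.exp (-Ex β r₀ s) / s = |Real.log r₀| ^ κ * (|Real.log s| ^ (-κ) / s)
      rw [hE s ⟨hs.1, hs.2.trans_lt hρ.2⟩, mul_div_assoc]
    rw [h3, intervalIntegral.integral_const_mul, h1]
    ring
  refine ⟨h2, ?_⟩
  rw [h2, hE ρ hρ]
  have h4 : |Real.log ρ| ^ (-κ) = |Real.log ρ| ^ (1 - κ) / |Real.log ρ| := by
    rw [show -κ = 1 - κ - 1 by ring, Real.rpow_sub_one hLρ.ne']
  rw [h4]
  have h5 : 0 < |Real.log ρ| ^ (1 - κ) := Real.rpow_pos_of_pos hLρ _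
  have h6 : 0 < |Real.log r₀| ^ κ := Real.rpow_pos_of_pos hL0 _
  have h7 : κ - 1 ≠ 0 := by linarith
  field_simp

end Pool.Agent.NH62.RC
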