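import Pool.Agent.NH62.RC.Cmp
import Pool.Agent.NH62.RC.Wt

/-!
Axisymmetric flows: the decay of the circulation, inflow conditions at the records only (helper62).
-/

set_option autoImplicit false

open MeasureTheory Set Metric Filter Topology
open scoped ContDiff

namespace Pool.Agent.NH62.RC

open H459R3.NS W221.NS Pool.Agent.TH305.DR Pool.Agent.TH305.AX

variable {ν T : ℝ} {u : ℝ → V → V} {p : ℝ → V → ℝ}

lemma mono_of_hd {t₁ : ℝ} {J B : ℝ → ℝ} (hJ : ∀ t ∈ Ico t₁ T, HasDerivAt J (B t) t)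
    (hB : ∀ t ∈ Ico t₁ T, 0 ≤ B t) : MonotoneOn J (Ico t₁ T) := by
  apply monotoneOn_of_deriv_nonneg (convex_Ico t₁ T)
  · exact fun t ht => (hJ t ht).continuousAt.continuousWithinAt
  · exact fun t ht => (hJ t (interior_subset ht)).differentiableAt.differentiableWithinAt
  · intro t ht
    rw [(hJ t (interior_subset ht)).deriv]
    exact hB t (interior_subset ht)

theorem fin (hν : 0 < ν) (h : AxSol ν T u p) {t₁ r₀ M K K₀ : ℝ} (ht₁ : 0 ≤ t₁) (hr₀ : 0 < r₀)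
    {β : ℝ → ℝ} (hβ : ContinuousOn β (Ioc 0 r₀)) (hβ0 : ∀ r ∈ Ioc 0 r₀, 0 ≤ β r)
    (hint : IntervalIntegrable (fun s => Real.exp (-Ex β r₀ s) / s) volume 0 r₀)
    {J B : ℝ → ℝ} (hJ : ∀ t ∈ Ico t₁ T, HasDerivAt J (B t) t) (hB : ∀ t ∈ Ico t₁ T, 0 ≤ B t)
    (hJK : ∀ t ∈ Ico t₁ T, J t ≤ K)
    (hM : ∀ t ∈ Ico t₁ T, ∀ x, √(sg x) = r₀ → |circ (u t) x| ≤ M)
    (hin : ∀ x, √(sg x) ≤ r₀ → |circ (u t₁) x| ≤ M * √(sg x) ^ 2)
    (hrec : ∀ t ∈ Ioo t₁ T, ∀ x, 0 < √(sg x) → √(sg x) < r₀ →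
      K₀ * wt β r₀ (√(sg x)) < |circ (u t) x| →
      (∀ t' ∈ Icc t₁ t, ∀ y, √(sg y) ≤ √(sg x) → |circ (u t') y| ≤ |circ (u t) x|) →
      fderiv ℝ (circ (u t)) x ![0, 0, 1] = 0 →
      circ (u t) x * fderiv ℝ (circ (u t)) x ![x 0, x 1, 0]
        ≤ Real.exp (-Ex β r₀ (√(sg x))) / wt β r₀ (√(sg x)) * circ (u t) x ^ 2 →
      -(ν * β (√(sg x))) - B t * √(sg x) ^ 2 ≤ x 0 * u t x 0 + x 1 * u t x 1) :
    ∃ A : ℝ, ∀ t ∈ Ico t₁ T, ∀ x, √(sg x) ≤ r₀ → |circ (u t) x| ≤ A * wt β r₀ (√(sg x)) := by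
  have hmono := mono_of_hd hJ hB
  have hh0 : 0 < wt β r₀ r₀ := wt_pos hint hβ hβ0 hr₀ hr₀ le_rfl
  obtain ⟨A, hA⟩ : ∃ A, A = 1 + |K₀| + |M| * (2 * r₀ ^ 2) + |M| / wt β r₀ r₀ :=
    ⟨_, rfl⟩
  have hp1 : 0 ≤ |M| * (2 * r₀ ^ 2) := by positivity
  have hp2 : 0 ≤ |M| / wt β r₀ r₀ := by positivity
  have hp3 : 0 ≤ |K₀| := abs_nonneg _
  have hA1 : 1 ≤ A := by linarith
  have hAK : K₀ ≤ A := by linarith [le_abs_self K₀]
  have hA2 : |M| * (2 * r₀ ^ 2) ≤ A := by linarith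
  have hA3 : |M| ≤ A * wt β r₀ r₀ := by
    have h1 : |M| / wt β r₀ r₀ ≤ A := by linarith
    rwa [div_le_iff₀ hh0] at h1
  have hA0 : 0 < A := by linarith
  have hwn : ∀ ρ ∈ Icc 0 r₀, 0 ≤ wt β r₀ ρ := by
    intro ρ hρ
    have := wt_mono hint hβ hr₀ ⟨le_rfl, hr₀.le⟩ hρ hρ.1
    rwa [wt_zero] at this
  have hsS : ∀ x : V, sg x ≤ r₀ ^ 2 ↔ √(sg x) ≤ r₀ := fun x => (Real.sqrt_le_left hr₀.le).symm
  have hsq : ∀ σ ∈ Icc 0 (r₀ ^ 2), √σ ∈ Icc 0 r₀ := fun σ hσ =>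
    ⟨Real.sqrt_nonneg _, (Real.sqrt_le_left hr₀.le).2 hσ.2⟩
  refine ⟨A * Real.exp (2 * (K - J t₁)), fun t ht x hx => ?_⟩
  have ht₁I : t₁ ∈ Ico t₁ T := ⟨le_rfl, ht.1.trans_lt ht.2⟩
  have hE1 : ∀ t ∈ Ico t₁ T, 1 ≤ Real.exp (2 * (J t - J t₁)) := by
    intro t ht
    apply Real.one_le_exp
    have := hmono ht₁I ht ht.1
    linarith
  have hEc : ContinuousOn (fun t => A * Real.exp (2 * (J t - J t₁))) (Ico t₁ T) := by
    intro t ht
    have h1 := (hJ t ht).continuousAt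
    exact (continuousAt_const.mul ((continuousAt_const.mul
      (h1.sub continuousAt_const)).rexp)).continuousWithinAt
  have key : ∀ δ > 0, |circ (u t) x| ≤ δ + A * Real.exp (2 * (J t - J t₁)) * wt β r₀ (√(sg x)) := by
    intro δ hδ
    refine cmpR hν h hδ (S := r₀ ^ 2) (by positivity) ht₁
      (Φ := fun t σ => A * Real.exp (2 * (J t - J t₁)) * wt β r₀ (√σ))
      (Φ₁ := fun t σ => A * Real.exp (2 * (J t - J t₁)) * (Real.exp (-Ex β r₀ (√σ)) / (2 * σ)))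
      ?_ ?_ ?_ ?_ ?_ ?_ ?_ t ht x
      ((hsS x).2 hx)
    · intro t _ σ hσ
      have := hwn _ (hsq σ hσ)
      positivity
    · intro t ht t' ht' σ hσ σ' hσ'
      have h1 : √σ' ≤ √σ := Real.sqrt_le_sqrt hσ'.2
      have h2 := wt_mono hint hβ hr₀ (hsq σ' ⟨hσ'.1, hσ'.2.trans hσ.2⟩) (hsq σ hσ) h1
      have h3 := hmono ⟨ht'.1, ht'.2.trans_lt ht.2⟩ ht ht'.2
      have h4 := hwn _ (hsq σ' ⟨hσ'.1, hσ'.2.trans hσ.2⟩)
      have h5 : Real.exp (2 * (J t' - J t₁)) ≤ Real.exp (2 * (J t - J t₁)) :=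
        Real.exp_le_exp.2 (by linarith)
      show A * Real.exp (2 * (J t' - J t₁)) * wt β r₀ (√σ')
        ≤ A * Real.exp (2 * (J t - J t₁)) * wt β r₀ (√σ)
      gcongr
    · have h1 : ContinuousOn (fun z : ℝ × ℝ => wt β r₀ (√z.2)) (Ico t₁ T ×ˢ Icc 0 (r₀ ^ 2)) :=
        (wt_cont hint hr₀).comp (f := fun z : ℝ × ℝ => √z.2)
          (Real.continuous_sqrt.comp continuous_snd).continuousOn fun z hz => hsq _ hz.2
      have h2 : ContinuousOn (fun z : ℝ × ℝ => A * Real.exp (2 * (J z.1 - J t₁)))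
          (Ico t₁ T ×ˢ Icc 0 (r₀ ^ 2)) :=
        hEc.comp (f := fun z : ℝ × ℝ => z.1) continuous_fst.continuousOn fun z hz => hz.1
      exact h2.mul h1
    · intro t _ σ hσ
      have h1 : √σ < r₀ := by
        rw [← Real.sqrt_sq hr₀.le]
        exact Real.sqrt_lt_sqrt hσ.1.le hσ.2
      exact (sq_hd hint hβ hσ.1 h1).const_mul _
    · intro y hy
      have hyr := (hsS y).1 hy
      show |circ (u t₁) y| ≤ δ + A * Real.exp (2 * (J t₁ - J t₁)) * wt β r₀ (√(sg y))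
      rw [sub_self, mul_zero, Real.exp_zero, mul_one]
      rcases eq_or_lt_of_le (Real.sqrt_nonneg (sg y)) with h0 | h0
      · have h1 := hin y hyr
        rw [← h0] at h1 ⊢
        rw [wt_zero]
        linarith [show M * (0 : ℝ) ^ 2 = 0 by ring]
      · have h1 := hin y hyr
        have h2 := wt_sq hint hβ hβ0 hr₀ h0 hyr
        have h3 : M * √(sg y) ^ 2 ≤ A * wt β r₀ (√(sg y)) := by
          calc M * √(sg y) ^ 2 ≤ |M| * √(sg y) ^ 2 := by gcongr; exact le_abs_self M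
            _ = |M| * (2 * r₀ ^ 2) * (√(sg y) ^ 2 / (2 * r₀ ^ 2)) := by field_simp
            _ ≤ A * wt β r₀ (√(sg y)) := by gcongr
        linarith
    · intro t ht y hy
      have hyr : √(sg y) = r₀ := by rw [hy, Real.sqrt_sq hr₀.le]
      show |circ (u t) y| ≤ δ + A * Real.exp (2 * (J t - J t₁)) * wt β r₀ (√(sg y))
      rw [hyr]
      have h1 := hM t ht y hyr
      have h2 : A * 1 * wt β r₀ r₀ ≤ A * Real.exp (2 * (J t - J t₁)) * wt β r₀ r₀ := by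
        have := hE1 t ht
        gcongr
      have h3 := le_abs_self M
      linarith
    · intro t ht y hy0 hyS hbig hr hz hg
      have htI : t ∈ Ico t₁ T := Ioo_subset_Ico_self ht
      have hρ0 : 0 < √(sg y) := Real.sqrt_pos.2 hy0
      have hρR : √(sg y) < r₀ := by
        rw [← Real.sqrt_sq hr₀.le]
        exact Real.sqrt_lt_sqrt hy0.le hyS
      have hw0 := wt_pos hint hβ hβ0 hr₀ hρ0 hρR.le
      have hEt := hE1 t htI
      have hbig' : A * Real.exp (2 * (J t - J t₁)) * wt β r₀ (√(sg y)) < |circ (u t) y| := by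
        have h2 : δ + A * Real.exp (2 * (J t - J t₁)) * wt β r₀ (√(sg y)) < |circ (u t) y| := hbig
        linarith
      have h1 : K₀ * wt β r₀ (√(sg y)) < |circ (u t) y| := by
        have h3 : A * 1 * wt β r₀ (√(sg y)) ≤ A * Real.exp (2 * (J t - J t₁)) * wt β r₀ (√(sg y)) := by
          gcongr
        have h4 : K₀ * wt β r₀ (√(sg y)) ≤ A * wt β r₀ (√(sg y)) := by gcongr
        linarith
      have hflat : circ (u t) y * fderiv ℝ (circ (u t)) y ![y 0, y 1, 0]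
          ≤ Real.exp (-Ex β r₀ (√(sg y))) / wt β r₀ (√(sg y)) * circ (u t) y ^ 2 := by
        rw [hg]
        have e1 : 2 * sg y * (A * Real.exp (2 * (J t - J t₁)) * (Real.exp (-Ex β r₀ (√(sg y)))
            / (2 * sg y))) = A * Real.exp (2 * (J t - J t₁)) * Real.exp (-Ex β r₀ (√(sg y))) := by
          field_simp
        show |circ (u t) y| * (2 * sg y * (A * Real.exp (2 * (J t - J t₁))
          * (Real.exp (-Ex β r₀ (√(sg y))) / (2 * sg y)))) ≤ _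
        rw [e1, ← sq_abs (circ (u t) y)]
        have e2 : A * Real.exp (2 * (J t - J t₁)) * Real.exp (-Ex β r₀ (√(sg y)))
            = Real.exp (-Ex β r₀ (√(sg y))) / wt β r₀ (√(sg y))
              * (A * Real.exp (2 * (J t - J t₁)) * wt β r₀ (√(sg y))) := by
          field_simp
        rw [e2]
        have e3 : 0 ≤ |circ (u t) y| := abs_nonneg _
        have e4 : 0 < Real.exp (-Ex β r₀ (√(sg y))) / wt β r₀ (√(sg y)) := by positivity
        have e5 : |circ (u t) y| * (A * Real.exp (2 * (J t - J t₁)) * wt β r₀ (√(sg y)))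
            ≤ |circ (u t) y| ^ 2 := by
          rw [sq]
          exact mul_le_mul_of_nonneg_left hbig'.le e3
        calc _ = Real.exp (-Ex β r₀ (√(sg y))) / wt β r₀ (√(sg y))
              * (|circ (u t) y| * (A * Real.exp (2 * (J t - J t₁)) * wt β r₀ (√(sg y)))) := by ring
          _ ≤ _ := mul_le_mul_of_nonneg_left e5 e4.le
      have hin2 := hrec t ht y hρ0 hρR h1 (fun t' ht' z hz' => hr t' ht' z (by
        have h2 := Real.sqrt_nonneg (sg z)
        have h3 : √(sg z) ^ 2 ≤ √(sg y) ^ 2 := pow_le_pow_left₀ h2 hz' 2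
        rwa [Real.sq_sqrt (sg_nonneg z), Real.sq_sqrt (sg_nonneg y)] at h3)) hz hflat
      obtain ⟨a, ha⟩ : ∃ a, a = A * Real.exp (2 * (J t - J t₁)) := ⟨_, rfl⟩
      have ha0 : 0 < a := by rw [ha]; positivity
      refine ⟨fun σ => a * wt β r₀ (√σ), fun σ => a * (Real.exp (-Ex β r₀ (√σ)) / (2 * σ)),
        a * -(β (√(sg y)) * Real.exp (-Ex β r₀ (√(sg y))) / (4 * sg y ^ 2)),
        2 * B t * a * wt β r₀ (√(sg y)),
        fun τ => A * Real.exp (2 * (J τ - J t₁)) * wt β r₀ (√(sg y)),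
        ⟨contDiffAt_const.mul (sq_smooth hint hβ hr₀ hy0 hρR), ?_, (sq_hd2 hβ hy0 hρR).const_mul a,
          ?_, ?_, Eventually.of_forall fun _ => le_rfl, rfl, ?_⟩, ?_⟩
      · have hU : ∀ᶠ σ in 𝓝 (sg y), 0 < σ ∧ √σ < r₀ :=
          (lt_mem_nhds hy0).and (Real.continuous_sqrt.continuousAt.eventually (gt_mem_nhds hρR))
        filter_upwards [hU] with σ hσ
        exact (sq_hd hint hβ hσ.1 hσ.2).const_mul a
      · exact Eventually.of_forall fun r => by rw [ha]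
      · rw [ha]
      · have h2 : HasDerivAt (fun τ => 2 * (J τ - J t₁)) (2 * B t) t :=
          ((hJ t htI).sub_const (J t₁)).const_mul 2
        refine ((h2.exp.const_mul A).mul_const (wt β r₀ (√(sg y)))).congr_deriv ?_
        rw [ha]
        ring
      · show 4 * ν * sg y * (a * -(β (√(sg y)) * Real.exp (-Ex β r₀ (√(sg y))) / (4 * sg y ^ 2)))
          - 2 * (y 0 * u t y 0 + y 1 * u t y 1) * (a * (Real.exp (-Ex β r₀ (√(sg y))) / (2 * sg y)))
          ≤ 2 * B t * a * wt β r₀ (√(sg y))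
        obtain ⟨e, he⟩ : ∃ e, e = Real.exp (-Ex β r₀ (√(sg y))) := ⟨_, rfl⟩
        have he0 : 0 < e := by rw [he]; exact Real.exp_pos _
        have h4 := wt_ge hint hβ hβ0 hr₀ hρ0 hρR.le
        rw [← he] at h4 ⊢
        have hBt := hB t htI
        rw [Real.sq_sqrt hy0.le] at hin2
        obtain ⟨b, hb⟩ : ∃ b, b = β (√(sg y)) := ⟨_, rfl⟩
        rw [← hb] at hin2 ⊢
        obtain ⟨w, hw⟩ : ∃ w, w = y 0 * u t y 0 + y 1 * u t y 1 := ⟨_, rfl⟩
        rw [← hw] at hin2 ⊢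
        obtain ⟨σ, hσ⟩ : ∃ σ, σ = sg y := ⟨_, rfl⟩
        rw [← hσ] at hin2 hy0 h4 ⊢
        have h5 : 4 * ν * σ * (a * -(b * e / (4 * σ ^ 2))) - 2 * w * (a * (e / (2 * σ)))
            = a * e / σ * (-(ν * b) - w) := by
          field_simp
        rw [h5]
        calc a * e / σ * (-(ν * b) - w) ≤ a * e / σ * (B t * σ) := by
              apply mul_le_mul_of_nonneg_left _ (by positivity)
              linarith
          _ = 2 * B t * a * (e / 2) := by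
              field_simp
          _ ≤ _ := by gcongr
  have hlim : |circ (u t) x| ≤ A * Real.exp (2 * (J t - J t₁)) * wt β r₀ (√(sg x)) := by
    apply le_of_forall_pos_le_add
    intro δ hδ
    have := key δ hδ
    linarith
  refine hlim.trans ?_
  have h1 := hJK t ht
  have h2 := hwn _ (show √(sg x) ∈ Icc 0 r₀ from ⟨Real.sqrt_nonneg _, hx⟩)
  have h3 : Real.exp (2 * (J t - J t₁)) ≤ Real.exp (2 * (K - J t₁)) :=
    Real.exp_le_exp.2 (by linarith)
  gcongr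

end Pool.Agent.NH62.RC
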